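import Pool.Agent.H61.KZ.Circle

set_option autoImplicit false

open Filter Topology

namespace H61KZ

theorem step_bound {F : ℕ → ℝ} {B : ℝ} (hB : ∀ k, |F (k + 1) - F k| ≤ B) (N i : ℕ) :
    |F (N + i) - F N| ≤ i * B := by
  induction i with
  | zero => simp
  | succ i ih =>
    have h := hB (N + i)
    have e : F (N + (i + 1)) - F N = (F (N + i + 1) - F (N + i)) + (F (N + i) - F N) := by
      rw [← add_assoc]
      ring
    rw [e]
    refine (abs_add_le _ _).trans ?_
    push_cast
    linarith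

theorem sum_shift (F : ℕ → ℝ) (m N : ℕ) :
    ∑ k ∈ Finset.range N, (F (k + m) - F k) = ∑ i ∈ Finset.range m, (F (N + i) - F i) := by
  induction N with
  | zero => simp
  | succ N ih =>
    rw [Finset.sum_range_succ, ih]
    have h : ∑ i ∈ Finset.range m, (F (N + 1 + i) - F i) -
        ∑ i ∈ Finset.range m, (F (N + i) - F i) = F (N + m) - F N := by
      rw [← Finset.sum_sub_distrib]
      have := Finset.sum_range_sub (fun i => F (N + i)) m
      simp only [add_zero] at this
      rw [← this]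
      refine Finset.sum_congr rfl fun i _ => ?_
      have e : N + 1 + i = N + (i + 1) := by ring
      rw [e]
      ring
    linarith

theorem exists_rho {F : ℕ → ℝ} {B η : ℝ} (h0 : F 0 = 0) (hB : ∀ k, |F (k + 1) - F k| ≤ B) :
    ∃ ρ : ℝ, ∀ (m : ℕ) (c : ℝ), (∀ k, |F (k + m) - F k - c| ≤ η) → |m * ρ - c| ≤ η := by
  have hB0 : 0 ≤ B := (abs_nonneg _).trans (hB 0)
  have hF : ∀ N : ℕ, |F N| ≤ N * B := by
    intro N
    have := step_bound hB 0 N
    rw [zero_add, h0, sub_zero] at this
    exact this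
  have hbd : Bornology.IsBounded (Set.Icc (-B) B) := Metric.isBounded_Icc _ _
  have hu : ∀ N : ℕ, F (N + 1) / ((N + 1 : ℕ) : ℝ) ∈ Set.Icc (-B) B := by
    intro N
    have hp : (0 : ℝ) < ((N + 1 : ℕ) : ℝ) := by positivity
    have h1 := abs_le.1 (hF (N + 1))
    constructor
    · rw [le_div_iff₀ hp]
      linarith [h1.1]
    · rw [div_le_iff₀ hp]
      linarith [h1.2]
  obtain ⟨ρ, _, φ, hφ, hlim⟩ := tendsto_subseq_of_bounded hbd hu
  refine ⟨ρ, fun m c hc => ?_⟩
  have key : ∀ N : ℕ, |m * F N - N * c| ≤ N * η + 2 * (m * (m * B)) := by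
    intro N
    have e1 : |∑ k ∈ Finset.range N, (F (k + m) - F k) - N * c| ≤ N * η := by
      have : ∑ k ∈ Finset.range N, (F (k + m) - F k) - N * c =
          ∑ k ∈ Finset.range N, (F (k + m) - F k - c) := by
        rw [Finset.sum_sub_distrib (fun k => F (k + m) - F k) (fun _ => c)]
        simp
      rw [this]
      refine (Finset.abs_sum_le_sum_abs _ _).trans ?_
      refine (Finset.sum_le_sum fun k _ => hc k).trans ?_
      simp
    have e2 : |m * F N - ∑ k ∈ Finset.range N, (F (k + m) - F k)| ≤ 2 * (m * (m * B)) := by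
      rw [sum_shift]
      have : (m : ℝ) * F N - ∑ i ∈ Finset.range m, (F (N + i) - F i) =
          ∑ i ∈ Finset.range m, (F i - (F (N + i) - F N)) := by
        have e : (m : ℝ) * F N = ∑ _i ∈ Finset.range m, F N := by simp
        rw [e, ← Finset.sum_sub_distrib]
        refine Finset.sum_congr rfl fun i _ => ?_
        ring
      rw [this]
      refine (Finset.abs_sum_le_sum_abs _ _).trans ?_
      have hle : ∀ i ∈ Finset.range m, |F i - (F (N + i) - F N)| ≤ 2 * (m * B) := by
        intro i hi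
        have hi' : (i : ℝ) ≤ m := by exact_mod_cast (Finset.mem_range.1 hi).le
        have h1 := hF i
        have h2 := step_bound hB N i
        have h3 : (i : ℝ) * B ≤ m * B := mul_le_mul_of_nonneg_right hi' hB0
        refine (abs_sub _ _).trans ?_
        linarith
      refine (Finset.sum_le_sum hle).trans ?_
      rw [Finset.sum_const, Finset.card_range, nsmul_eq_mul]
      apply le_of_eq
      ring
    have : (m : ℝ) * F N - N * c = (m * F N - ∑ k ∈ Finset.range N, (F (k + m) - F k)) +
        (∑ k ∈ Finset.range N, (F (k + m) - F k) - N * c) := by ring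
    rw [this]
    refine (abs_add_le _ _).trans ?_
    linarith
  have hle : ∀ n : ℕ, |m * (F (φ n + 1) / ((φ n + 1 : ℕ) : ℝ)) - c| ≤
      η + 2 * (m * (m * B)) / ((φ n + 1 : ℕ) : ℝ) := by
    intro n
    have hp : (0 : ℝ) < ((φ n + 1 : ℕ) : ℝ) := by positivity
    have h1 := key (φ n + 1)
    have e : (m : ℝ) * (F (φ n + 1) / ((φ n + 1 : ℕ) : ℝ)) - c =
        (m * F (φ n + 1) - ((φ n + 1 : ℕ) : ℝ) * c) / ((φ n + 1 : ℕ) : ℝ) := by
      field_simp
    rw [e, abs_div, abs_of_pos hp, div_le_iff₀ hp]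
    refine h1.trans (le_of_eq ?_)
    field_simp
  have t1 : Tendsto (fun n => |m * (F (φ n + 1) / ((φ n + 1 : ℕ) : ℝ)) - c|) atTop
      (𝓝 (|m * ρ - c|)) := ((hlim.const_mul (m : ℝ)).sub_const c).abs
  have t2 : Tendsto (fun n => η + 2 * (m * (m * B)) / ((φ n + 1 : ℕ) : ℝ)) atTop
      (𝓝 (η + 0)) := by
    refine tendsto_const_nhds.add ?_
    have t3 : Tendsto (fun n : ℕ => 2 * (m * (m * B)) / ((n + 1 : ℕ) : ℝ)) atTop (𝓝 0) := by
      have := (tendsto_const_div_atTop_nhds_zero_nat (2 * ((m : ℝ) * (m * B)))).comp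
        (tendsto_add_atTop_nat 1)
      exact this
    exact t3.comp hφ.tendsto_atTop
  rw [add_zero] at t2
  exact le_of_tendsto_of_tendsto' t1 t2 hle

theorem half_int (z w : ℤ) : (1 / 2 : ℝ) ≤ |1 / 2 + (z : ℝ) - w| := by
  rcases le_or_gt w z with h | h
  · have : (w : ℝ) ≤ z := by exact_mod_cast h
    rw [le_abs]
    left
    linarith
  · have : (z : ℝ) + 1 ≤ w := by exact_mod_cast h
    rw [le_abs]
    right
    linarith

/-- Every circle-valued function on the integers is, at a scale larger than 1/4, at least as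
recurrent as a character. -/
theorem main (f : ℤ → ℝ) (δ : ℝ) (hδ : 1 / 4 < δ) :
    ∃ θ : ℝ, ∀ n ∈ Far f δ, δ ≤ nn (θ * n) := by
  obtain ⟨d, hd⟩ := Int.subgroup_cyclic (AddSubgroup.closure (Far f δ))
  have hdm : d ∈ AddSubgroup.closure (Far f δ) := by
    rw [hd]
    exact AddSubgroup.subset_closure rfl
  have hmem : ∀ n ∈ Far f δ, ∃ k : ℤ, n = k * d := by
    intro n hn
    have h1 : n ∈ AddSubgroup.closure (Far f δ) := AddSubgroup.subset_closure hn
    rw [hd, AddSubgroup.mem_closure_singleton] at h1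
    obtain ⟨k, hk⟩ := h1
    exact ⟨k, by rw [← hk]; simp⟩
  obtain ⟨L, ⟨B, hB⟩, hL, hL'⟩ := lift_closure hδ hdm
  set F : ℕ → ℝ := fun k => ∑ j ∈ Finset.range k, L ((j : ℤ) * d) with hF
  have hF0 : F 0 = 0 := by simp [hF]
  have hFs : ∀ k, F (k + 1) - F k = L ((k : ℤ) * d) := by
    intro k
    simp only [hF, Finset.sum_range_succ]
    ring
  obtain ⟨ρ, hρ⟩ := exists_rho (F := F) (B := B) (η := 1 / 2 - δ) hF0
    (fun k => by rw [hFs]; exact hB _)
  -- positive multiples
  have hpos : ∀ m : ℕ, ((m : ℤ) * d) ∈ Far f δ → δ ≤ nn (ρ * m) := by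
    intro m hm
    set s : ℤ := (m : ℤ) * d with hs
    have hconst : ∀ k : ℕ, F (k + m) - F k - g f s ((k : ℤ) * d) = F m - g f s 0 := by
      intro k
      induction k with
      | zero => simp [hF0]
      | succ k ih =>
        rw [← ih]
        have h1 := hFs (k + m)
        have h2 := hFs k
        have h3 := hL' s hm ((k : ℤ) * d)
        have e1 : ((k + m : ℕ) : ℤ) * d = (k : ℤ) * d + s := by
          rw [hs]
          push_cast
          ring
        have e2 : ((k + 1 : ℕ) : ℤ) * d = (k : ℤ) * d + d := by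
          push_cast
          ring
        have e3 : k + 1 + m = k + m + 1 := by ring
        rw [e1] at h1
        rw [e2, e3]
        linarith
    have hint : ∀ k : ℕ, ∃ z : ℤ, F k = f ((k : ℤ) * d) - f 0 + z := by
      intro k
      induction k with
      | zero => exact ⟨0, by simp [hF0]⟩
      | succ k ih =>
        obtain ⟨z, hz⟩ := ih
        obtain ⟨w, hw⟩ := hL ((k : ℤ) * d)
        refine ⟨z + w, ?_⟩
        have h2 := hFs k
        have e2 : ((k + 1 : ℕ) : ℤ) * d = (k : ℤ) * d + d := by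
          push_cast
          ring
        rw [e2]
        push_cast
        linarith
    obtain ⟨z, hz⟩ := hint m
    obtain ⟨w, hw⟩ := g_spec f s 0
    rw [zero_add] at hw
    have hc : F m - g f s 0 = 1 / 2 + ((z + w : ℤ) : ℝ) := by
      rw [hz]
      push_cast
      linarith
    have h1 : |(m : ℝ) * ρ - (F m - g f s 0)| ≤ 1 / 2 - δ := by
      apply hρ
      intro k
      have h2 := hconst k
      have h3 := g_bound hm ((k : ℤ) * d)
      have e : F (k + m) - F k - (F m - g f s 0) = g f s ((k : ℤ) * d) := by linarith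
      rw [e]
      exact h3
    rw [hc] at h1
    have h2 := half_int (z + w) (round (ρ * m))
    unfold nn
    have h3 : |1 / 2 + ((z + w : ℤ) : ℝ) - (round (ρ * m) : ℝ)| ≤
        |ρ * m - (round (ρ * m) : ℝ)| + |(m : ℝ) * ρ - (1 / 2 + ((z + w : ℤ) : ℝ))| := by
      have e : 1 / 2 + ((z + w : ℤ) : ℝ) - (round (ρ * m) : ℝ) =
          (ρ * m - (round (ρ * m) : ℝ)) - ((m : ℝ) * ρ - (1 / 2 + ((z + w : ℤ) : ℝ))) := by ring
      rw [e]
      exact abs_sub _ _
    linarith
  by_cases hd0 : d = 0
  · refine ⟨0, fun n hn => ?_⟩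
    obtain ⟨k, hk⟩ := hmem n hn
    rw [hd0, mul_zero] at hk
    have := hn 0
    rw [hk] at this
    simp [nn] at this
    linarith
  · refine ⟨ρ / d, fun n hn => ?_⟩
    obtain ⟨k, hk⟩ := hmem n hn
    have hdr : (d : ℝ) ≠ 0 := by exact_mod_cast hd0
    have e : ρ / d * (n : ℝ) = ρ * k := by
      rw [hk]
      push_cast
      field_simp
    rw [e]
    obtain ⟨m, hm | hm⟩ := Int.eq_nat_or_neg k
    · rw [hm]
      push_cast
      apply hpos
      rw [← hm, ← hk]
      exact hn
    · have e2 : ρ * (k : ℝ) = -(ρ * m) := by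
        rw [hm]
        push_cast
        ring
      rw [e2, nn_neg]
      apply hpos
      have e3 : (m : ℤ) * d = -n := by
        rw [hk, hm]
        ring
      rw [e3]
      exact far_neg hn

end H61KZ
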