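import Mathlib

/-!
Circle-valued functions on the integers at scale larger than 1/4 (helper file for
MP_83445a_co).  Main statement: `H61KZ.main`.
-/

set_option autoImplicit false

namespace H61KZ

/-- distance to the nearest integer -/
noncomputable def nn (y : ℝ) : ℝ := |y - (round y : ℝ)|

theorem nn_le (y : ℝ) (z : ℤ) : nn y ≤ |y - z| := round_le y z

theorem nn_neg (y : ℝ) : nn (-y) = nn y := by
  apply le_antisymm
  · refine (nn_le (-y) (-round y)).trans (le_of_eq ?_)
    unfold nn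
    rw [← abs_neg]
    congr 1
    push_cast
    ring
  · refine (nn_le y (-round (-y))).trans (le_of_eq ?_)
    unfold nn
    rw [← abs_neg]
    congr 1
    push_cast
    ring

theorem nn_add_int (y : ℝ) (z : ℤ) : nn (y + z) = nn y := by
  unfold nn
  rw [round_add_intCast]
  congr 1
  push_cast
  ring

theorem nn_nonneg (y : ℝ) : 0 ≤ nn y := abs_nonneg _

/-- the deviation from one half -/
noncomputable def dev (y : ℝ) : ℝ := (y - 1 / 2) - (round (y - 1 / 2) : ℝ)

theorem dev_le {y δ : ℝ} (h : δ ≤ nn y) : |dev y| ≤ 1 / 2 - δ := by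
  unfold dev
  have h1 := abs_sub_round y
  unfold nn at h
  rcases le_or_gt 0 (y - round y) with h0 | h0
  · rw [abs_of_nonneg h0] at h h1
    refine (round_le (y - 1 / 2) (round y)).trans ?_
    rw [abs_le]
    constructor <;> linarith
  · rw [abs_of_neg h0] at h h1
    refine (round_le (y - 1 / 2) (round y - 1)).trans ?_
    push_cast
    rw [abs_le]
    constructor <;> linarith

/-- the set of differences that are always far -/
def Far (f : ℤ → ℝ) (δ : ℝ) : Set ℤ := {s | ∀ x : ℤ, δ ≤ nn (f (x + s) - f x)}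

/-- the deviation cocycle -/
noncomputable def g (f : ℤ → ℝ) (s x : ℤ) : ℝ := dev (f (x + s) - f x)

theorem g_spec (f : ℤ → ℝ) (s x : ℤ) : ∃ m : ℤ, f (x + s) - f x = 1 / 2 + g f s x + m := by
  refine ⟨round (f (x + s) - f x - 1 / 2), ?_⟩
  unfold g dev
  ring

theorem g_bound {f : ℤ → ℝ} {δ : ℝ} {s : ℤ} (hs : s ∈ Far f δ) (x : ℤ) :
    |g f s x| ≤ 1 / 2 - δ := dev_le (hs x)

theorem g_comm {f : ℤ → ℝ} {δ : ℝ} (hδ : 1 / 4 < δ) {s t : ℤ} (hs : s ∈ Far f δ)
    (ht : t ∈ Far f δ) (x : ℤ) :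
    g f s x + g f t (x + s) = g f t x + g f s (x + t) := by
  obtain ⟨a, ha⟩ := g_spec f s x
  obtain ⟨b, hb⟩ := g_spec f t (x + s)
  obtain ⟨c, hc⟩ := g_spec f t x
  obtain ⟨d, hd⟩ := g_spec f s (x + t)
  have e : x + s + t = x + t + s := by ring
  rw [e] at hb
  have key : g f s x + g f t (x + s) - (g f t x + g f s (x + t)) = ((c + d - a - b : ℤ) : ℝ) := by
    push_cast
    linarith
  have b1 := abs_le.1 (g_bound hs x)
  have b2 := abs_le.1 (g_bound ht (x + s))
  have b3 := abs_le.1 (g_bound ht x)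
  have b4 := abs_le.1 (g_bound hs (x + t))
  have l1 : ((c + d - a - b : ℤ) : ℝ) < 1 := by rw [← key]; linarith
  have l2 : (-1 : ℝ) < ((c + d - a - b : ℤ) : ℝ) := by rw [← key]; linarith
  have l1' : (c + d - a - b : ℤ) < 1 := by exact_mod_cast l1
  have l2' : (-1 : ℤ) < (c + d - a - b : ℤ) := by exact_mod_cast l2
  have : (c + d - a - b : ℤ) = 0 := by omega
  rw [this] at key
  push_cast at key
  linarith

/-- increments lifted along `h` -/
def Lift (f : ℤ → ℝ) (δ : ℝ) (h : ℤ) : Prop :=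
  ∃ L : ℤ → ℝ, (∃ B : ℝ, ∀ x, |L x| ≤ B) ∧ (∀ x, ∃ m : ℤ, L x = f (x + h) - f x + m) ∧
    ∀ t ∈ Far f δ, ∀ x, L (x + t) - L x = g f t (x + h) - g f t x

theorem lift_closure {f : ℤ → ℝ} {δ : ℝ} (hδ : 1 / 4 < δ) {h : ℤ}
    (hh : h ∈ AddSubgroup.closure (Far f δ)) : Lift f δ h := by
  induction hh using AddSubgroup.closure_induction with
  | mem s hs =>
    refine ⟨fun x => 1 / 2 + g f s x, ⟨1, fun x => ?_⟩, fun x => ?_, fun t ht x => ?_⟩
    · have b1 := abs_le.1 (g_bound hs x)
      rw [abs_le]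
      constructor <;> linarith
    · obtain ⟨m, hm⟩ := g_spec f s x
      refine ⟨-m, ?_⟩
      push_cast
      linarith
    · have := g_comm hδ hs ht x
      linarith
  | zero =>
    refine ⟨fun _ => 0, ⟨0, by simp⟩, fun x => ⟨0, by simp⟩, fun t ht x => by simp⟩
  | add h k _ _ ih1 ih2 =>
    obtain ⟨L, ⟨B, hB⟩, hL, hL'⟩ := ih1
    obtain ⟨M, ⟨C, hC⟩, hM, hM'⟩ := ih2
    refine ⟨fun x => L x + M (x + h), ⟨B + C, fun x => ?_⟩, fun x => ?_, fun t ht x => ?_⟩
    · exact (abs_add_le _ _).trans (add_le_add (hB x) (hC _))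
    · obtain ⟨a, ha⟩ := hL x
      obtain ⟨b, hb⟩ := hM (x + h)
      refine ⟨a + b, ?_⟩
      have e : x + (h + k) = x + h + k := by ring
      rw [e]
      push_cast
      linarith
    · have h1 := hL' t ht x
      have h2 := hM' t ht (x + h)
      have e1 : x + t + h = x + h + t := by ring
      have e2 : x + (h + k) = x + h + k := by ring
      simp only
      rw [e1, e2]
      linarith
  | neg h _ ih =>
    obtain ⟨L, ⟨B, hB⟩, hL, hL'⟩ := ih
    refine ⟨fun x => -L (x - h), ⟨B, fun x => ?_⟩, fun x => ?_, fun t ht x => ?_⟩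
    · rw [abs_neg]
      exact hB _
    · obtain ⟨a, ha⟩ := hL (x - h)
      refine ⟨-a, ?_⟩
      have e : x - h + h = x := by ring
      rw [e] at ha
      have e2 : x + -h = x - h := by ring
      rw [e2]
      push_cast
      linarith
    · have h1 := hL' t ht (x - h)
      have e1 : x - h + t = x + t - h := by ring
      have e2 : x - h + h = x := by ring
      have e3 : x + -h = x - h := by ring
      simp only
      rw [e1, e2] at h1
      rw [e3]
      linarith

theorem far_neg {f : ℤ → ℝ} {δ : ℝ} {s : ℤ} (hs : s ∈ Far f δ) : -s ∈ Far f δ := by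
  intro x
  have := hs (x + -s)
  have e : x + -s + s = x := by ring
  rw [e] at this
  rw [← nn_neg]
  have e2 : -(f (x + -s) - f x) = f x - f (x + -s) := by ring
  rw [e2]
  exact this

end H61KZ
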